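import Mathlib

/-!
# The strong maximum principle fails for `Δu ≤ Vu` with `V^{1/2} ∈ L^p`, `p < 2`

For every `N ≥ 1` and every nonempty open `Ω ⊆ ℝ^N` we construct a measurable `V ≥ 0` on `ℝ^N` with
`V^{1/2} ∈ L^p(Ω)` for all `p < 2` simultaneously, and a function `u ≥ 0` of class `C²`, not
identically zero, with compact support in `Ω`, such that `Vu ∈ L^1(Ω)` and `Δu ≤ Vu`.

The function is `u(x) = W(1 - |x-c|²/R²)` where `W` is convex, vanishes on `(-∞,0]`, is positive on
`(0,∞)` and `W''` is concentrated on extremely short intervals near the points `2^{-k-2}`.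
-/

set_option autoImplicit false

namespace Pool.Agent.Results.MP_1d8377_an.NoStrongMax

open MeasureTheory Laplacian InnerProductSpace Filter Topology Set
open scoped ENNReal

/-! ### The hypotheses of the problem -/

/-- The hypotheses of the problem on `V` and `u` over the open set `Ω`. -/
structure Admissible {N : ℕ} (Ω : Set (EuclideanSpace ℝ (Fin N)))
    (V u : EuclideanSpace ℝ (Fin N) → ℝ) : Prop where
  integrable : IntegrableOn u Ω
  continuous : ContinuousOn u Ω
  nonneg : ∀ x ∈ Ω, 0 ≤ u x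
  integrable_mul : IntegrableOn (fun x => V x * u x) Ω
  laplacian_le : ∀ φ : EuclideanSpace ℝ (Fin N) → ℝ, ContDiff ℝ (⊤ : ℕ∞) φ →
    HasCompactSupport φ → tsupport φ ⊆ Ω → (∀ x, 0 ≤ φ x) →
    (∫ x in Ω, u x * Δ φ x) ≤ (∫ x in Ω, V x * u x * φ x)
  compact_support : ∃ K, IsCompact K ∧ K ⊆ Ω ∧ ∀ x ∈ Ω, x ∉ K → u x = 0

/-! ### The one-dimensional profile -/

section profile

/-- The smooth transition function. -/
noncomputable abbrev th : ℝ → ℝ := Real.smoothTransition

lemma th_contDiff : ContDiff ℝ 2 th := Real.smoothTransition.contDiff (n := 2)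

lemma th_diff (x : ℝ) : HasDerivAt th (deriv th x) x :=
  (th_contDiff.differentiable (by norm_num) x).hasDerivAt

lemma th'_cont : Continuous (deriv th) := th_contDiff.continuous_deriv (by norm_num)

lemma th'_zero_of_nonpos {x : ℝ} (hx : x ≤ 0) : deriv th x = 0 := by
  have : IsLocalMin th x := Eventually.of_forall fun y => by
    rw [show th x = 0 from Real.smoothTransition.zero_of_nonpos hx]
    exact Real.smoothTransition.nonneg y
  exact this.deriv_eq_zero

lemma th'_zero_of_one_le {x : ℝ} (hx : 1 ≤ x) : deriv th x = 0 := by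
  have : IsLocalMax th x := Eventually.of_forall fun y => by
    rw [show th x = 1 from Real.smoothTransition.one_of_one_le hx]
    exact Real.smoothTransition.le_one y
  exact this.deriv_eq_zero

lemma th'_nonneg (x : ℝ) : 0 ≤ deriv th x := Real.smoothTransition.monotone.deriv_nonneg

lemma th'_bdd : ∃ C, 0 < C ∧ ∀ x, deriv th x ≤ C := by
  obtain ⟨C, hC⟩ := (isCompact_Icc (a := (0 : ℝ)) (b := 1)).exists_bound_of_continuousOn
    th'_cont.continuousOn
  refine ⟨max C 1, by positivity, fun x => ?_⟩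
  by_cases hx : x ∈ Icc (0 : ℝ) 1
  · exact (le_abs_self _).trans ((hC x hx).trans (le_max_left _ _))
  · have : deriv th x = 0 := by
      rw [mem_Icc, not_and_or, not_le, not_le] at hx
      rcases hx with hx | hx
      · exact th'_zero_of_nonpos hx.le
      · exact th'_zero_of_one_le hx.le
    rw [this]; positivity

/-- A bound for the derivative of the transition function. -/
noncomputable def Cth : ℝ := th'_bdd.choose
lemma Cth_pos : 0 < Cth := th'_bdd.choose_spec.1
lemma th'_le (x : ℝ) : deriv th x ≤ Cth := th'_bdd.choose_spec.2 x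

/-- The positions of the kinks. -/
noncomputable def sk (k : ℕ) : ℝ := (1 / 2) ^ (k + 2)
/-- The widths of the kinks. -/
noncomputable def ek (k : ℕ) : ℝ := (1 / 2) ^ ((k + 2) ^ 2)
/-- The jumps of the slope. -/
noncomputable def ak (k : ℕ) : ℝ := (1 / 2) ^ k * ek k

lemma sk_pos (k : ℕ) : 0 < sk k := by unfold sk; positivity
lemma ek_pos (k : ℕ) : 0 < ek k := by unfold ek; positivity
lemma ak_pos (k : ℕ) : 0 < ak k := by unfold ak; have := ek_pos k; positivity

lemma ek_le (k : ℕ) : ek k ≤ (1 / 2) ^ (k + 3) := by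
  unfold ek
  apply pow_le_pow_of_le_one (by norm_num) (by norm_num)
  nlinarith

lemma ek_le_half (k : ℕ) : ek k ≤ sk k / 2 := by
  refine (ek_le k).trans (le_of_eq ?_)
  unfold sk
  rw [pow_succ]; ring

lemma ek_le_one (k : ℕ) : ek k ≤ 1 := by
  unfold ek; exact pow_le_one₀ (by norm_num) (by norm_num)

lemma sk_double {j k : ℕ} (h : j < k) : 2 * sk k ≤ sk j := by
  unfold sk
  have : ((1 : ℝ) / 2) ^ (k + 2) ≤ (1 / 2) ^ (j + 2 + 1) :=
    pow_le_pow_of_le_one (by norm_num) (by norm_num) (by omega)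
  have e : ((1 : ℝ) / 2) ^ (j + 2 + 1) = (1 / 2) ^ (j + 2) * (1 / 2) := pow_succ _ _
  rw [e] at this
  linarith

lemma sk_le (k : ℕ) : sk k + ek k ≤ 1 / 2 := by
  have h1 := ek_le_half k
  have h2 : sk k ≤ 1 / 4 := by
    unfold sk
    calc ((1 : ℝ) / 2) ^ (k + 2) ≤ (1 / 2) ^ 2 :=
          pow_le_pow_of_le_one (by norm_num) (by norm_num) (by omega)
      _ = 1 / 4 := by norm_num
  linarith

lemma summable_half : Summable (fun k : ℕ => ((1 : ℝ) / 2) ^ k) :=
  summable_geometric_of_lt_one (by norm_num) (by norm_num)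

/-- The slope function. -/
noncomputable def mf (s : ℝ) : ℝ := ∑' k, ak k * th ((s - sk k) / ek k)

/-- The derivative of the slope function. -/
noncomputable def mf' (s : ℝ) : ℝ := ∑' k, (1 / 2 : ℝ) ^ k * deriv th ((s - sk k) / ek k)

lemma term_bound (k : ℕ) (s : ℝ) : ‖ak k * th ((s - sk k) / ek k)‖ ≤ (1 / 2) ^ k := by
  have h1 := Real.smoothTransition.nonneg ((s - sk k) / ek k)
  have h2 := Real.smoothTransition.le_one ((s - sk k) / ek k)
  have h3 := ak_pos k
  rw [Real.norm_eq_abs, abs_of_nonneg (mul_nonneg h3.le h1)]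
  have h4 : ak k ≤ (1 / 2) ^ k := by
    unfold ak
    have := ek_le_one k
    have h5 : (0 : ℝ) < (1 / 2) ^ k := by positivity
    nlinarith
  calc ak k * th ((s - sk k) / ek k) ≤ ak k * 1 := mul_le_mul_of_nonneg_left h2 h3.le
    _ ≤ _ := by linarith

lemma summable_term (s : ℝ) : Summable (fun k => ak k * th ((s - sk k) / ek k)) :=
  Summable.of_norm_bounded summable_half fun k => term_bound k s

lemma term'_bound (k : ℕ) (s : ℝ) :
    ‖(1 / 2 : ℝ) ^ k * deriv th ((s - sk k) / ek k)‖ ≤ (1 / 2) ^ k * Cth := by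
  rw [Real.norm_eq_abs, abs_of_nonneg (mul_nonneg (by positivity) (th'_nonneg _))]
  exact mul_le_mul_of_nonneg_left (th'_le _) (by positivity)

lemma hasDerivAt_mf (s : ℝ) : HasDerivAt mf (mf' s) s := by
  have key := hasDerivAt_tsum (𝕜 := ℝ) (F := ℝ) (u := fun k : ℕ => (1 / 2 : ℝ) ^ k * Cth)
    (g := fun k s => ak k * th ((s - sk k) / ek k))
    (g' := fun k s => (1 / 2 : ℝ) ^ k * deriv th ((s - sk k) / ek k)) (y₀ := 0)
    (summable_half.mul_right Cth) ?_ term'_bound (summable_term 0) s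
  · exact key
  intro k y
  have h1 : HasDerivAt (fun s : ℝ => (s - sk k) / ek k) (1 / ek k) y :=
    ((hasDerivAt_id y).sub_const _).div_const _
  have h2 := ((th_diff ((y - sk k) / ek k)).comp y h1).const_mul (ak k)
  refine h2.congr_deriv ?_
  unfold ak
  have := (ek_pos k).ne'
  field_simp

lemma continuous_mf' : Continuous mf' := by
  refine continuous_tsum (u := fun k : ℕ => (1 / 2 : ℝ) ^ k * Cth) ?_
    (summable_half.mul_right Cth) term'_bound
  intro k
  exact continuous_const.mul (th'_cont.comp (by fun_prop))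

lemma continuous_mf : Continuous mf :=
  continuous_iff_continuousAt.mpr fun s => (hasDerivAt_mf s).continuousAt

lemma mf_nonneg (s : ℝ) : 0 ≤ mf s :=
  tsum_nonneg fun k => mul_nonneg (ak_pos k).le (Real.smoothTransition.nonneg _)

lemma mf'_nonneg (s : ℝ) : 0 ≤ mf' s :=
  tsum_nonneg fun k => mul_nonneg (by positivity) (th'_nonneg _)

lemma mf_zero {s : ℝ} (hs : s ≤ 0) : mf s = 0 := by
  unfold mf
  have : ∀ k, ak k * th ((s - sk k) / ek k) = 0 := by
    intro k
    rw [show th ((s - sk k) / ek k) = 0 from Real.smoothTransition.zero_of_nonpos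
      (div_nonpos_of_nonpos_of_nonneg (by linarith [sk_pos k]) (ek_pos k).le), mul_zero]
  simp only [this, tsum_zero]

lemma mf'_zero {s : ℝ} (hs : s ≤ 0) : mf' s = 0 := by
  unfold mf'
  have : ∀ k, (1 / 2 : ℝ) ^ k * deriv th ((s - sk k) / ek k) = 0 := by
    intro k
    rw [th'_zero_of_nonpos
      (div_nonpos_of_nonpos_of_nonneg (by linarith [sk_pos k]) (ek_pos k).le), mul_zero]
  simp only [this, tsum_zero]

lemma mf_lower {k : ℕ} {t : ℝ} (ht : sk k + ek k ≤ t) : ak k ≤ mf t := by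
  have h1 : ak k * th ((t - sk k) / ek k) ≤ mf t :=
    (summable_term t).le_tsum k fun j _ =>
      mul_nonneg (ak_pos j).le (Real.smoothTransition.nonneg _)
  have h2 : th ((t - sk k) / ek k) = 1 := by
    apply Real.smoothTransition.one_of_one_le
    rw [le_div_iff₀ (ek_pos k)]; linarith
  rwa [h2, mul_one] at h1

/-- The profile `W`. -/
noncomputable def Wf (s : ℝ) : ℝ := ∫ t in (0 : ℝ)..s, mf t

lemma hasDerivAt_Wf (s : ℝ) : HasDerivAt Wf (mf s) s :=
  intervalIntegral.integral_hasDerivAt_right (continuous_mf.intervalIntegrable _ _)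
    (continuous_mf.stronglyMeasurableAtFilter _ _) continuous_mf.continuousAt

lemma Wf_zero {s : ℝ} (hs : s ≤ 0) : Wf s = 0 := by
  unfold Wf
  have : ∫ t in (0 : ℝ)..s, mf t = ∫ t in (0 : ℝ)..s, (0 : ℝ) := by
    refine intervalIntegral.integral_congr fun t ht => ?_
    rw [uIcc_of_ge hs] at ht
    exact mf_zero ht.2
  rw [this, intervalIntegral.integral_zero]

lemma Wf_sub_ge {x s c : ℝ} (hxs : x ≤ s) (hc : ∀ t ∈ Icc x s, c ≤ mf t) :
    c * (s - x) ≤ Wf s - Wf x := by
  unfold Wf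
  rw [intervalIntegral.integral_interval_sub_left (continuous_mf.intervalIntegrable _ _)
    (continuous_mf.intervalIntegrable _ _)]
  have h0 : IntervalIntegrable (fun _ : ℝ => c) volume x s := intervalIntegrable_const
  have := intervalIntegral.integral_mono_on hxs h0 (continuous_mf.intervalIntegrable x s) hc
  rw [intervalIntegral.integral_const, smul_eq_mul] at this
  linarith

lemma Wf_mono : Monotone Wf := by
  intro x s hxs
  have := Wf_sub_ge (c := 0) hxs fun t _ => mf_nonneg t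
  linarith

lemma Wf_nonneg (s : ℝ) : 0 ≤ Wf s := by
  rcases le_total s 0 with h | h
  · rw [Wf_zero h]
  · have := Wf_mono h
    rwa [Wf_zero le_rfl] at this

lemma Wf_lower {k : ℕ} {s : ℝ} (hs : sk k ≤ s) : (1 / 2) ^ (k + 4) * ak (k + 1) ≤ Wf s := by
  have h1 : sk (k + 1) + ek (k + 1) ≤ sk k - (1 / 2) ^ (k + 4) := by
    have h2 := ek_le (k + 1)
    have h3 : sk (k + 1) = (1 / 2) ^ (k + 3) := rfl
    have h4 : sk k = 2 * (1 / 2) ^ (k + 3) := by unfold sk; rw [pow_succ _ (k + 2)]; ring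
    have h5 : ((1 : ℝ) / 2) ^ (k + 3) = 2 * (1 / 2) ^ (k + 4) := by rw [pow_succ _ (k + 3)]; ring
    have h6 : (k + 1 + 3) = k + 4 := by omega
    rw [h6] at h2
    rw [h3, h4]
    linarith
  have hp : (0 : ℝ) < (1 / 2) ^ (k + 4) := by positivity
  have h2 : sk (k + 1) + ek (k + 1) ≤ s := by linarith
  have h3 := Wf_sub_ge h2 (c := ak (k + 1)) fun t ht => mf_lower ht.1
  have h4 := Wf_nonneg (sk (k + 1) + ek (k + 1))
  have h5 := ak_pos (k + 1)
  have h6 : (1 / 2) ^ (k + 4) ≤ s - (sk (k + 1) + ek (k + 1)) := by linarith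
  nlinarith

lemma exists_sk_le {s : ℝ} (hs : 0 < s) : ∃ k, sk k ≤ s := by
  obtain ⟨n, hn⟩ := exists_pow_lt_of_lt_one hs (by norm_num : (1 / 2 : ℝ) < 1)
  exact ⟨n, (pow_le_pow_of_le_one (by norm_num) (by norm_num) (by omega)).trans hn.le⟩

lemma Wf_pos {s : ℝ} (hs : 0 < s) : 0 < Wf s := by
  obtain ⟨k, hk⟩ := exists_sk_le hs
  have := ak_pos (k + 1)
  exact lt_of_lt_of_le (by positivity) (Wf_lower hk)

lemma mf'_on {k : ℕ} {s : ℝ} (hs : s ∈ Icc (sk k) (sk k + ek k)) : mf' s ≤ (1 / 2) ^ k * Cth := by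
  have : mf' s = (1 / 2 : ℝ) ^ k * deriv th ((s - sk k) / ek k) := by
    unfold mf'
    refine tsum_eq_single k fun j hj => ?_
    rcases lt_or_gt_of_ne hj with h | h
    · -- `j < k`, so `s < sk j`
      have h1 := sk_double h
      have h2 := ek_le_half k
      have h3 := sk_pos k
      rw [th'_zero_of_nonpos, mul_zero]
      exact div_nonpos_of_nonpos_of_nonneg (by linarith [hs.2]) (ek_pos j).le
    · have h1 := sk_double h
      have h2 := ek_le_half j
      have h3 := sk_pos j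
      rw [th'_zero_of_one_le, mul_zero]
      rw [le_div_iff₀ (ek_pos j)]
      linarith [hs.1]
  rw [this]
  exact mul_le_mul_of_nonneg_left (th'_le _) (by positivity)

lemma mf'_off {s : ℝ} (hs : ∀ k, s ∉ Icc (sk k) (sk k + ek k)) : mf' s = 0 := by
  unfold mf'
  have : ∀ k, (1 / 2 : ℝ) ^ k * deriv th ((s - sk k) / ek k) = 0 := by
    intro k
    have h := hs k
    rw [mem_Icc, not_and_or, not_le, not_le] at h
    rcases h with h | h
    · rw [th'_zero_of_nonpos, mul_zero]
      exact div_nonpos_of_nonpos_of_nonneg (by linarith) (ek_pos k).le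
    · rw [th'_zero_of_one_le, mul_zero]
      rw [le_div_iff₀ (ek_pos k)]
      linarith
  simp only [this, tsum_zero]

/-- The quotient `W''/W`. -/
noncomputable def Qf (s : ℝ) : ℝ := mf' s / Wf s

lemma Qf_nonneg (s : ℝ) : 0 ≤ Qf s := div_nonneg (mf'_nonneg s) (Wf_nonneg s)

lemma Qf_off {s : ℝ} (hs : ∀ k, s ∉ Icc (sk k) (sk k + ek k)) : Qf s = 0 := by
  rw [Qf, mf'_off hs, zero_div]

/-- The bound for `W''/W` on the `k`-th kink. -/
noncomputable def hk (k : ℕ) : ℝ := 16 * Cth * 2 ^ ((k + 1) + (k + 3) ^ 2)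

lemma hk_pos (k : ℕ) : 0 < hk k := by unfold hk; have := Cth_pos; positivity

lemma Qf_on {k : ℕ} {s : ℝ} (hs : s ∈ Icc (sk k) (sk k + ek k)) : Qf s ≤ hk k := by
  have h1 := mf'_on hs
  have h2 := Wf_lower hs.1
  have h3 := ak_pos (k + 1)
  have h4 : 0 < Wf s := lt_of_lt_of_le (by positivity) h2
  rw [Qf, div_le_iff₀ h4]
  refine h1.trans ?_
  refine le_trans (le_of_eq ?_) (mul_le_mul_of_nonneg_left h2 (hk_pos k).le)
  unfold hk ak ek
  have e1 : k + 1 + 2 = k + 3 := by omega
  rw [e1, pow_add 2 (k + 1) ((k + 3) ^ 2)]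
  have e2 : ((1 : ℝ) / 2) ^ (k + 3) ^ 2 * 2 ^ (k + 3) ^ 2 = 1 := by
    rw [← mul_pow]; norm_num
  have e3 : ((1 : ℝ) / 2) ^ (k + 1) * 2 ^ (k + 1) = 1 := by
    rw [← mul_pow]; norm_num
  have e4 : ((1 : ℝ) / 2) ^ (k + 4) = (1 / 2) ^ k * (1 / 16) := by
    rw [pow_add]; norm_num
  rw [e4]
  linear_combination (-(1 / 2 : ℝ) ^ k * Cth) * e3 +
    (-(1 / 2 : ℝ) ^ k * Cth * ((1 / 2) ^ (k + 1) * 2 ^ (k + 1))) * e2

/-- Summability of the `L^q` contributions, `q < 1`. -/
lemma summable_key {q : ℝ} (hq0 : 0 < q) (hq : q < 1) (B : ℝ) (hB : 0 < B) :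
    Summable (fun k => (B * hk k) ^ q * ek k) := by
  have hC := Cth_pos
  have e : ∀ k : ℕ, (B * hk k) ^ q * ek k =
      (B * (16 * Cth)) ^ q * (2 : ℝ) ^ (q * ((k + 1) + (k + 3) ^ 2) - (k + 2) ^ 2) := by
    intro k
    unfold hk ek
    rw [← mul_assoc, Real.mul_rpow (by positivity) (by positivity), Real.rpow_sub (by norm_num),
      mul_comm q, Real.rpow_mul (by norm_num)]
    have e1 : ((2 : ℝ) ^ ((k + 1) + (k + 3) ^ 2 : ℕ)) = (2 : ℝ) ^ (((k : ℝ) + 1) + ((k : ℝ) + 3) ^ 2) := by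
      rw [← Real.rpow_natCast]; push_cast; rfl
    have e2 : ((1 : ℝ) / 2) ^ ((k + 2) ^ 2) = ((2 : ℝ) ^ ((k : ℝ) + 2) ^ 2)⁻¹ := by
      rw [one_div, inv_pow, ← Real.rpow_natCast]; push_cast; rfl
    rw [e1, e2]
    ring
  simp_rw [e]
  refine Summable.mul_left _ ?_
  refine summable_of_isBigO_nat summable_half ?_
  refine Asymptotics.IsBigO.of_bound 1 ?_
  obtain ⟨K, hK⟩ := exists_nat_gt (18 / (1 - q))
  filter_upwards [eventually_ge_atTop (max K 1)] with k hk
  have hkK : (K : ℝ) ≤ k := by exact_mod_cast (le_max_left _ _).trans hk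
  have hk1 : (1 : ℝ) ≤ k := by exact_mod_cast (le_max_right _ _).trans hk
  rw [Real.norm_eq_abs, abs_of_pos (by positivity), one_mul, Real.norm_eq_abs,
    abs_of_pos (by positivity)]
  have e3 : ((1 : ℝ) / 2) ^ k = (2 : ℝ) ^ (-(k : ℝ)) := by
    rw [Real.rpow_neg (by norm_num), Real.rpow_natCast, one_div, inv_pow]
  rw [e3]
  apply Real.rpow_le_rpow_of_exponent_le (by norm_num)
  have h1 : 18 < (1 - q) * k := by
    have h2 : 18 / (1 - q) < k := lt_of_lt_of_le hK hkK
    rw [div_lt_iff₀ (by linarith)] at h2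
    linarith
  nlinarith [mul_pos hq0 (by linarith : (0 : ℝ) < k)]

end profile

/-! ### Laplacians and Green's identity -/

section general
variable {E : Type*} [NormedAddCommGroup E] [InnerProductSpace ℝ E] [FiniteDimensional ℝ E]

/-- The Laplacian computed from the second derivative. -/
lemma laplacian_eq_of_hasFDerivAt {f : E → ℝ} {f' : E → E →L[ℝ] ℝ}
    {f'' : E →L[ℝ] E →L[ℝ] ℝ} {x : E} {ι : Type*} [Fintype ι] (b : OrthonormalBasis ι ℝ E)
    (h : ∀ᶠ y in nhds x, HasFDerivAt f (f' y) y) (h' : HasFDerivAt f' f'' x) :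
    Δ f x = ∑ i, f'' (b i) (b i) := by
  rw [laplacian_eq_iteratedFDeriv_orthonormalBasis f b]
  refine Finset.sum_congr rfl fun i _ => ?_
  rw [iteratedFDeriv_two_apply]
  have h1 : fderiv ℝ f =ᶠ[nhds x] f' := by
    filter_upwards [h] with y hy using hy.fderiv
  rw [h1.fderiv_eq, h'.fderiv]
  simp

omit [FiniteDimensional ℝ E] in
lemma bilin_aux (w e : E) (he : inner ℝ e e = (1 : ℝ)) (α β : ℝ) :
    (α • (2 • (innerSL ℝ : E →L[ℝ] E →L[ℝ] ℝ)) +
      (β • (2 • (innerSL ℝ w))).smulRight ((2 : ℕ) • (innerSL ℝ w))) e e =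
      4 * β * (inner ℝ w e) ^ 2 + 2 * α := by
  rw [add_apply, ContinuousLinearMap.smulRight_apply]
  simp [he, -inner_self_eq_norm_sq_to_K]
  ring

/-- Laplacian of a function of `‖x - c‖²`. -/
lemma laplacian_comp_normSq {U U' U'' : ℝ → ℝ} (c x : E)
    (h : ∀ s, HasDerivAt U (U' s) s) (h' : ∀ s, HasDerivAt U' (U'' s) s) :
    Δ (fun y : E => U (‖y - c‖ ^ 2)) x =
      4 * ‖x - c‖ ^ 2 * U'' (‖x - c‖ ^ 2) +
        2 * (Module.finrank ℝ E : ℝ) * U' (‖x - c‖ ^ 2) := by
  have hn : ∀ y : E, HasFDerivAt (fun y : E => ‖y - c‖ ^ 2) (2 • (innerSL ℝ (y - c))) y :=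
    fun y => by
      have h1 := (hasStrictFDerivAt_norm_sq (y - c)).hasFDerivAt
      have h2 := h1.comp y ((hasFDerivAt_id y).sub_const c)
      exact h2
  have h1 : ∀ y, HasFDerivAt (fun y : E => U (‖y - c‖ ^ 2))
      (U' (‖y - c‖ ^ 2) • (2 • (innerSL ℝ (y - c)))) y :=
    fun y => (h _).comp_hasFDerivAt y (hn y)
  have h2 : HasFDerivAt (fun y : E => U' (‖y - c‖ ^ 2))
      (U'' (‖x - c‖ ^ 2) • (2 • (innerSL ℝ (x - c)))) x :=
    (h' _).comp_hasFDerivAt x (hn x)
  have h3 : HasFDerivAt (fun y : E => (2 : ℕ) • (innerSL ℝ (y - c)))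
      (2 • (innerSL ℝ : E →L[ℝ] E →L[ℝ] ℝ)) x := by
    have := (((2 : ℕ) • (innerSL ℝ : E →L[ℝ] E →L[ℝ] ℝ)).hasFDerivAt (x := x - c)).comp x
      ((hasFDerivAt_id x).sub_const c)
    exact this
  have h4 := h2.smul h3
  rw [laplacian_eq_of_hasFDerivAt (stdOrthonormalBasis ℝ E) (Eventually.of_forall h1) h4]
  have hsum := (stdOrthonormalBasis ℝ E).sum_sq_inner_left (x - c)
  have hterm : ∀ i, (U' (‖x - c‖ ^ 2) • (2 • (innerSL ℝ : E →L[ℝ] E →L[ℝ] ℝ)) +
      (U'' (‖x - c‖ ^ 2) • (2 • (innerSL ℝ (x - c)))).smulRight ((2 : ℕ) • (innerSL ℝ (x - c))))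
        ((stdOrthonormalBasis ℝ E) i) ((stdOrthonormalBasis ℝ E) i) =
      4 * U'' (‖x - c‖ ^ 2) * (inner ℝ (x - c) ((stdOrthonormalBasis ℝ E) i)) ^ 2 +
        2 * U' (‖x - c‖ ^ 2) := by
    intro i
    exact bilin_aux _ _ (by rw [real_inner_self_eq_norm_sq]; simp) _ _
  rw [Finset.sum_congr rfl fun i _ => hterm i, Finset.sum_add_distrib, ← Finset.mul_sum, hsum]
  simp
  ring

lemma laplacian_eq_sum_fderiv {f : E → ℝ} (hf : ContDiff ℝ 2 f) (x : E) :
    Δ f x = ∑ i, fderiv ℝ (fun y => fderiv ℝ f y (stdOrthonormalBasis ℝ E i)) x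
      (stdOrthonormalBasis ℝ E i) := by
  rw [laplacian_eq_iteratedFDeriv_stdOrthonormalBasis f]
  refine Finset.sum_congr rfl fun i _ => ?_
  rw [iteratedFDeriv_two_apply]
  have h1 : DifferentiableAt ℝ (fderiv ℝ f) x :=
    (hf.fderiv_right (m := 1) (by norm_num)).differentiable (by norm_num) x
  rw [fderiv_clm_apply h1 (differentiableAt_const _)]
  simp

omit [FiniteDimensional ℝ E] in
lemma contDiff_dir {f : E → ℝ} (hf : ContDiff ℝ 2 f) (v : E) :
    ContDiff ℝ 1 (fun y => fderiv ℝ f y v) :=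
  (hf.fderiv_right (m := 1) (by norm_num)).clm_apply contDiff_const

omit [FiniteDimensional ℝ E] in
lemma hasCompactSupport_dir {f : E → ℝ} (hf : HasCompactSupport f) (v : E) :
    HasCompactSupport (fun y => fderiv ℝ f y v) := by
  have := hf.fderiv (𝕜 := ℝ)
  exact this.comp_left (g := fun L : E →L[ℝ] ℝ => L v) (by simp)

lemma continuous_laplacian {φ : E → ℝ} (hφ : ContDiff ℝ 2 φ) : Continuous (Δ φ) := by
  have : Δ φ = fun x => ∑ i, fderiv ℝ (fun y => fderiv ℝ φ y (stdOrthonormalBasis ℝ E i)) x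
    (stdOrthonormalBasis ℝ E i) := by
    ext x; exact laplacian_eq_sum_fderiv hφ x
  rw [this]
  refine continuous_finsetSum _ fun i _ => ?_
  exact ((contDiff_dir hφ _).continuous_fderiv (by norm_num)).clm_apply continuous_const

lemma laplacian_zero_of_notMem {φ : E → ℝ} (hφ : ContDiff ℝ 2 φ) {x : E} (hx : x ∉ tsupport φ) :
    Δ φ x = 0 := by
  rw [laplacian_eq_sum_fderiv hφ]
  refine Finset.sum_eq_zero fun i _ => ?_
  have h1 : x ∉ tsupport (fun y => fderiv ℝ φ y (stdOrthonormalBasis ℝ E i)) :=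
    fun h => hx (tsupport_fderiv_apply_subset ℝ _ h)
  rw [fderiv_of_notMem_tsupport _ h1]
  rfl

variable [MeasurableSpace E] [BorelSpace E]

/-- Green's identity. -/
lemma green {v φ : E → ℝ} (hv : ContDiff ℝ 2 v) (hφ : ContDiff ℝ 2 φ)
    (hc : HasCompactSupport φ) : ∫ x, v x * Δ φ x = ∫ x, Δ v x * φ x := by
  have key : ∀ e : E, ∫ x, v x * fderiv ℝ (fun y => fderiv ℝ φ y e) x e =
      ∫ x, fderiv ℝ (fun y => fderiv ℝ v y e) x e * φ x := by
    intro e
    have hv1 := contDiff_dir hv e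
    have hφ1 := contDiff_dir hφ e
    have hφc := hasCompactSupport_dir hc e
    have hv2c : Continuous (fun x => fderiv ℝ (fun y => fderiv ℝ v y e) x e) :=
      (hv1.continuous_fderiv (by norm_num)).clm_apply continuous_const
    have hφ2c : Continuous (fun x => fderiv ℝ (fun y => fderiv ℝ φ y e) x e) :=
      (hφ1.continuous_fderiv (by norm_num)).clm_apply continuous_const
    have hφ2s : HasCompactSupport (fun x => fderiv ℝ (fun y => fderiv ℝ φ y e) x e) :=
      (hφc.fderiv (𝕜 := ℝ)).comp_left (g := fun L : E →L[ℝ] ℝ => L e) (by simp)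
    have s1 := integral_mul_fderiv_eq_neg_fderiv_mul_of_integrable (μ := volume) (f := v)
      (g := fun y => fderiv ℝ φ y e) (v := e)
      ((hv1.continuous.mul hφ1.continuous).integrable_of_hasCompactSupport hφc.mul_left)
      ((hv.continuous.mul hφ2c).integrable_of_hasCompactSupport hφ2s.mul_left)
      ((hv.continuous.mul hφ1.continuous).integrable_of_hasCompactSupport hφc.mul_left)
      (fun x _ => hv.differentiable (by norm_num) x)
      (fun x _ => hφ1.differentiable (by norm_num) x)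
    have s2 := integral_mul_fderiv_eq_neg_fderiv_mul_of_integrable (μ := volume)
      (f := fun y => fderiv ℝ v y e) (g := φ) (v := e)
      ((hv2c.mul hφ.continuous).integrable_of_hasCompactSupport hc.mul_left)
      ((hv1.continuous.mul hφ1.continuous).integrable_of_hasCompactSupport hφc.mul_left)
      ((hv1.continuous.mul hφ.continuous).integrable_of_hasCompactSupport hc.mul_left)
      (fun x _ => hv1.differentiable (by norm_num) x)
      (fun x _ => hφ.differentiable (by norm_num) x)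
    rw [s1, s2, neg_neg]
  simp_rw [laplacian_eq_sum_fderiv hv, laplacian_eq_sum_fderiv hφ, Finset.mul_sum, Finset.sum_mul]
  rw [integral_finsetSum, integral_finsetSum]
  · exact Finset.sum_congr rfl fun i _ => key _
  · intro i _
    have hv1 := contDiff_dir hv (stdOrthonormalBasis ℝ E i)
    exact (((hv1.continuous_fderiv (by norm_num)).clm_apply continuous_const).mul
      hφ.continuous).integrable_of_hasCompactSupport hc.mul_left
  · intro i _
    have hφ1 := contDiff_dir hφ (stdOrthonormalBasis ℝ E i)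
    exact (hv.continuous.mul ((hφ1.continuous_fderiv (by norm_num)).clm_apply
      continuous_const)).integrable_of_hasCompactSupport
      (((hasCompactSupport_dir hc _).fderiv (𝕜 := ℝ)).comp_left
        (g := fun L : E →L[ℝ] ℝ => L (stdOrthonormalBasis ℝ E i)) (by simp)).mul_left

end general

/-! ### The functions `u` and `V` -/

lemma contDiff_Wf : ContDiff ℝ 2 Wf := by
  have hd1 : deriv Wf = mf := funext fun s => (hasDerivAt_Wf s).deriv
  have hd2 : deriv mf = mf' := funext fun s => (hasDerivAt_mf s).deriv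
  have h1 : ContDiff ℝ 1 mf := by
    rw [contDiff_one_iff_deriv]
    exact ⟨fun s => (hasDerivAt_mf s).differentiableAt, by rw [hd2]; exact continuous_mf'⟩
  have : (2 : WithTop ℕ∞) = 1 + 1 := by norm_num
  rw [this, contDiff_succ_iff_deriv]
  refine ⟨fun s => (hasDerivAt_Wf s).differentiableAt, by simp, by rw [hd1]; exact h1⟩

section construction
variable {E : Type*} [NormedAddCommGroup E] [InnerProductSpace ℝ E] [FiniteDimensional ℝ E]

/-- `σ(x) = 1 - |x - c|²/R²`. -/
noncomputable def sg (c : E) (R : ℝ) (x : E) : ℝ := 1 - ‖x - c‖ ^ 2 / R ^ 2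

/-- `u(x) = W(σ(x))`. -/
noncomputable def uf (c : E) (R : ℝ) (x : E) : ℝ := Wf (sg c R x)

/-- `V(x) = (4/R²) (W''/W)(σ(x))`. -/
noncomputable def Vf (c : E) (R : ℝ) (x : E) : ℝ := 4 / R ^ 2 * Qf (sg c R x)

omit [FiniteDimensional ℝ E] in
lemma contDiff_sg (c : E) (R : ℝ) : ContDiff ℝ 2 (sg c R) := by
  unfold sg
  refine contDiff_const.sub (ContDiff.div_const ?_ _)
  exact (contDiff_id.sub contDiff_const).norm_sq ℝ

omit [FiniteDimensional ℝ E] in
lemma contDiff_uf (c : E) (R : ℝ) : ContDiff ℝ 2 (uf c R) :=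
  contDiff_Wf.comp (contDiff_sg c R)

lemma laplacian_uf (c : E) {R : ℝ} (hR : 0 < R) (x : E) :
    Δ (uf c R) x = 4 * ‖x - c‖ ^ 2 * (mf' (sg c R x) / R ^ 4) -
      2 * (Module.finrank ℝ E : ℝ) * (mf (sg c R x) / R ^ 2) := by
  have hR2 : R ≠ 0 := hR.ne'
  have hlin : ∀ s : ℝ, HasDerivAt (fun s : ℝ => 1 - s / R ^ 2) (-(1 / R ^ 2)) s := fun s =>
    (((hasDerivAt_id s).div_const (R ^ 2)).const_sub 1)
  have h := laplacian_comp_normSq (E := E) (U := fun s => Wf (1 - s / R ^ 2))
    (U' := fun s => mf (1 - s / R ^ 2) * (-(1 / R ^ 2)))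
    (U'' := fun s => mf' (1 - s / R ^ 2) * (-(1 / R ^ 2)) * (-(1 / R ^ 2))) c x
    (fun s => (hasDerivAt_Wf _).comp s (hlin s))
    (fun s => ((hasDerivAt_mf _).comp s (hlin s)).mul_const _)
  have e : uf c R = fun y : E => (fun s => Wf (1 - s / R ^ 2)) (‖y - c‖ ^ 2) := rfl
  rw [e, h]
  unfold sg
  field_simp
  ring

omit [FiniteDimensional ℝ E] in
lemma Vf_mul_uf (c : E) (R : ℝ) (x : E) : Vf c R x * uf c R x = 4 / R ^ 2 * mf' (sg c R x) := by
  unfold Vf uf Qf
  rcases le_or_gt (sg c R x) 0 with h | h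
  · rw [Wf_zero h, mf'_zero h]; simp
  · have := (Wf_pos h).ne'
    field_simp

lemma laplacian_le (c : E) {R : ℝ} (hR : 0 < R) (x : E) :
    Δ (uf c R) x ≤ Vf c R x * uf c R x := by
  rw [laplacian_uf c hR, Vf_mul_uf]
  have h1 := mf_nonneg (sg c R x)
  have h2 := mf'_nonneg (sg c R x)
  have h3 : 0 ≤ 2 * (Module.finrank ℝ E : ℝ) * (mf (sg c R x) / R ^ 2) := by positivity
  rcases le_or_gt (sg c R x) 0 with h | h
  · rw [mf'_zero h] at *
    simp only [zero_div, mul_zero, zero_sub]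
    linarith
  · have h4 : ‖x - c‖ ^ 2 ≤ R ^ 2 := by
      unfold sg at h
      have : ‖x - c‖ ^ 2 / R ^ 2 < 1 := by linarith
      rw [div_lt_one (by positivity)] at this
      exact this.le
    have h5 : 4 * ‖x - c‖ ^ 2 * (mf' (sg c R x) / R ^ 4) ≤ 4 / R ^ 2 * mf' (sg c R x) := by
      have e : 4 / R ^ 2 * mf' (sg c R x) = 4 * R ^ 2 * (mf' (sg c R x) / R ^ 4) := by
        field_simp
      rw [e]
      apply mul_le_mul_of_nonneg_right _ (by positivity)
      linarith
    linarith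

omit [FiniteDimensional ℝ E] in
lemma uf_zero {c : E} {R : ℝ} (hR : 0 < R) {x : E} (hx : x ∉ Metric.closedBall c R) :
    uf c R x = 0 := by
  apply Wf_zero
  rw [Metric.mem_closedBall, not_le, dist_eq_norm] at hx
  unfold sg
  have : 1 ≤ ‖x - c‖ ^ 2 / R ^ 2 := by
    rw [one_le_div (by positivity)]
    exact pow_le_pow_left₀ hR.le hx.le 2
  linarith

omit [FiniteDimensional ℝ E] in
lemma mf'_sg_zero {c : E} {R : ℝ} (hR : 0 < R) {x : E} (hx : x ∉ Metric.closedBall c R) :
    mf' (sg c R x) = 0 := by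
  apply mf'_zero
  rw [Metric.mem_closedBall, not_le, dist_eq_norm] at hx
  unfold sg
  have : 1 ≤ ‖x - c‖ ^ 2 / R ^ 2 := by
    rw [one_le_div (by positivity)]
    exact pow_le_pow_left₀ hR.le hx.le 2
  linarith

lemma pow_sub_pow_le {a b : ℝ} (ha : 0 ≤ a) (hab : a ≤ b) (hb : b ≤ 1) (n : ℕ) :
    b ^ n - a ^ n ≤ n * (b - a) := by
  induction n with
  | zero => simp
  | succ n ih =>
    have e : b ^ (n + 1) - a ^ (n + 1) = b ^ n * (b - a) + a * (b ^ n - a ^ n) := by ring
    have h1 : b ^ n ≤ 1 := pow_le_one₀ (ha.trans hab) hb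
    have h2 : 0 ≤ b ^ n - a ^ n := sub_nonneg.mpr (pow_le_pow_left₀ ha hab n)
    have h3 : a ≤ 1 := hab.trans hb
    rw [e]; push_cast
    nlinarith

variable [MeasurableSpace E] [BorelSpace E] [Nontrivial E]

/-- The annulus on which the `k`-th kink lives. -/
def Ann (c : E) (R : ℝ) (k : ℕ) : Set E := {x | sg c R x ∈ Icc (sk k) (sk k + ek k)}

lemma measure_Ann_le (c : E) {R : ℝ} (hR : 0 < R) (k : ℕ) :
    volume (Ann c R k) ≤ ENNReal.ofReal (R ^ Module.finrank ℝ E * Module.finrank ℝ E * ek k) *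
      volume (Metric.ball (0 : E) 1) := by
  set n := Module.finrank ℝ E
  have hs := sk_le k
  have hs0 := sk_pos k
  have he0 := ek_pos k
  set a := √(1 - sk k - ek k) with ha
  set b := √(1 - sk k) with hb
  have ha2 : a ^ 2 = 1 - sk k - ek k := Real.sq_sqrt (by linarith)
  have hb2 : b ^ 2 = 1 - sk k := Real.sq_sqrt (by linarith)
  have ha0 : 0 ≤ a := Real.sqrt_nonneg _
  have hb0 : 0 ≤ b := Real.sqrt_nonneg _
  have hab : a ≤ b := Real.sqrt_le_sqrt (by linarith)
  have hb1 : b ≤ 1 := by nlinarith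
  have ha1 : 1 / 2 ≤ a := by
    by_contra hcon
    push Not at hcon
    nlinarith
  have hsub : Ann c R k ⊆ Metric.closedBall c (R * b) \ Metric.ball c (R * a) := by
    intro x hx
    obtain ⟨h1, h2⟩ := hx
    unfold sg at h1 h2
    have hn := norm_nonneg (x - c)
    have e1 : ‖x - c‖ ^ 2 / R ^ 2 = (‖x - c‖ / R) ^ 2 := by rw [div_pow]
    rw [e1] at h1 h2
    have hq : 0 ≤ ‖x - c‖ / R := by positivity
    refine ⟨?_, ?_⟩
    · rw [Metric.mem_closedBall, dist_eq_norm, ← div_le_iff₀' hR]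
      by_contra hcon
      push Not at hcon
      nlinarith
    · rw [Metric.mem_ball, dist_eq_norm, not_lt, ← le_div_iff₀' hR]
      by_contra hcon
      push Not at hcon
      nlinarith
  refine (measure_mono hsub).trans ?_
  rw [measure_sdiff (Metric.ball_subset_closedBall.trans
    (Metric.closedBall_subset_closedBall (by nlinarith))) measurableSet_ball.nullMeasurableSet
    measure_ball_lt_top.ne, Measure.addHaar_closedBall _ c (by positivity : 0 ≤ R * b),
    Measure.addHaar_ball _ c (by positivity : 0 ≤ R * a), ← ENNReal.sub_mul (fun _ _ =>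
      measure_ball_lt_top.ne), ← ENNReal.ofReal_sub _ (by positivity)]
  gcongr
  rw [mul_pow, mul_pow, ← mul_sub, mul_assoc]
  gcongr
  refine (pow_sub_pow_le ha0 hab hb1 n).trans ?_
  gcongr
  nlinarith

lemma measurableSet_Ann (c : E) (R : ℝ) (k : ℕ) : MeasurableSet (Ann c R k) :=
  ((contDiff_sg c R).continuous.measurable) measurableSet_Icc

lemma Vf_nonneg (c : E) (R : ℝ) (x : E) : 0 ≤ Vf c R x :=
  mul_nonneg (by positivity) (Qf_nonneg _)

lemma measurable_Vf (c : E) (R : ℝ) : Measurable (Vf c R) := by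
  have h1 : Measurable Qf := continuous_mf'.measurable.div contDiff_Wf.continuous.measurable
  exact (h1.comp (contDiff_sg c R).continuous.measurable).const_mul _

/-- `V^{1/2}` is in `L^p` for every `p < 2`. -/
lemma memLp_sqrt_Vf (c : E) {R : ℝ} (hR : 0 < R) {p : ℝ≥0∞} (hp : p < 2) :
    MemLp (fun x => √(Vf c R x)) p (volume : Measure E) := by
  have hmeas : AEStronglyMeasurable (fun x => √(Vf c R x)) (volume : Measure E) :=
    (measurable_Vf c R).sqrt.aestronglyMeasurable
  rcases eq_or_ne p 0 with rfl | hp0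
  · exact memLp_zero_iff_aestronglyMeasurable.mpr hmeas
  have hptop : p ≠ ∞ := ne_top_of_lt hp
  refine ⟨hmeas, ?_⟩
  rw [eLpNorm_lt_top_iff_lintegral_rpow_enorm_lt_top hp0 hptop]
  set r := p.toReal with hr
  have hr0 : 0 < r := ENNReal.toReal_pos hp0 hptop
  have hr2 : r < 2 := by
    have := (ENNReal.toReal_lt_toReal hptop (by norm_num)).mpr hp
    simpa using this
  set q := r / 2 with hq
  have hq0 : 0 < q := by positivity
  have hq1 : q < 1 := by rw [hq]; linarith
  set B : ℝ := 4 / R ^ 2 with hB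
  have hB0 : 0 < B := by positivity
  have hval : ∀ x, ‖√(Vf c R x)‖ₑ ^ r = ENNReal.ofReal ((Vf c R x) ^ q) := by
    intro x
    have h0 := Vf_nonneg c R x
    rw [Real.enorm_eq_ofReal (Real.sqrt_nonneg _), ENNReal.ofReal_rpow_of_nonneg
      (Real.sqrt_nonneg _) hr0.le, Real.sqrt_eq_rpow, ← Real.rpow_mul h0]
    congr 2
    rw [hq]; ring
  simp_rw [hval]
  have hzero : ∀ x, x ∉ ⋃ k, Ann c R k → ENNReal.ofReal ((Vf c R x) ^ q) = 0 := by
    intro x hx
    rw [mem_iUnion, not_exists] at hx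
    have : Vf c R x = 0 := by
      unfold Vf
      rw [Qf_off hx, mul_zero]
    rw [this, Real.zero_rpow hq0.ne']; simp
  have hle : ∀ k, ∀ x ∈ Ann c R k, ENNReal.ofReal ((Vf c R x) ^ q) ≤
      ENNReal.ofReal ((B * hk k) ^ q) := by
    intro k x hx
    apply ENNReal.ofReal_le_ofReal
    apply Real.rpow_le_rpow (Vf_nonneg c R x) _ hq0.le
    exact mul_le_mul_of_nonneg_left (Qf_on hx) hB0.le
  set n := Module.finrank ℝ E
  set D : ℝ := R ^ n * n with hD
  have hD0 : 0 ≤ D := by positivity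
  calc ∫⁻ x, ENNReal.ofReal ((Vf c R x) ^ q)
      = ∫⁻ x in ⋃ k, Ann c R k, ENNReal.ofReal ((Vf c R x) ^ q) := by
        rw [← lintegral_indicator (MeasurableSet.iUnion fun k => measurableSet_Ann c R k)]
        congr 1
        ext x
        by_cases hx : x ∈ ⋃ k, Ann c R k
        · rw [indicator_of_mem hx]
        · rw [indicator_of_notMem hx, hzero x hx]
    _ ≤ ∑' k, ∫⁻ x in Ann c R k, ENNReal.ofReal ((Vf c R x) ^ q) := lintegral_iUnion_le _ _
    _ ≤ ∑' k, ENNReal.ofReal ((B * hk k) ^ q) * volume (Ann c R k) := by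
        refine ENNReal.tsum_le_tsum fun k => ?_
        refine (setLIntegral_mono measurable_const (hle k)).trans ?_
        rw [setLIntegral_const]
    _ ≤ ∑' k, ENNReal.ofReal ((B * hk k) ^ q) * (ENNReal.ofReal (D * ek k) *
          volume (Metric.ball (0 : E) 1)) := by
        refine ENNReal.tsum_le_tsum fun k => ?_
        gcongr
        exact measure_Ann_le c hR k
    _ = (∑' k, ENNReal.ofReal (D * ((B * hk k) ^ q * ek k))) *
          volume (Metric.ball (0 : E) 1) := by
        rw [← ENNReal.tsum_mul_right]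
        congr 1
        ext k
        rw [← mul_assoc, ← ENNReal.ofReal_mul (by have := hk_pos k; positivity)]
        congr 2
        ring
    _ < ∞ := by
        refine ENNReal.mul_lt_top ?_ measure_ball_lt_top
        exact ((summable_key hq0 hq1 B hB0).mul_left D).tsum_ofReal_lt_top

end construction

/-- **Main theorem.** For every `N ≥ 1` and every nonempty open set `Ω ⊆ ℝ^N` there are a
measurable `V ≥ 0` with `V^{1/2} ∈ L^p(Ω)` for every `p < 2` and a `C²` function `u` satisfying all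
hypotheses of the problem with `u ≢ 0` in `Ω`. -/
theorem result (N : ℕ) (hN : 1 ≤ N) (Ω : Set (EuclideanSpace ℝ (Fin N))) (hΩ : IsOpen Ω)
    (hne : Ω.Nonempty) :
    ∃ V u : EuclideanSpace ℝ (Fin N) → ℝ, Measurable V ∧ (∀ x, 0 ≤ V x) ∧
      (∀ p : ℝ≥0∞, p < 2 → MemLp (fun x => √(max (V x) 0)) p (volume.restrict Ω)) ∧
      ContDiff ℝ 2 u ∧ Admissible Ω V u ∧ ∃ x ∈ Ω, u x ≠ 0 := by
  obtain ⟨c, hc⟩ := hne
  obtain ⟨R, hR, hRΩ⟩ := Metric.nhds_basis_closedBall.mem_iff.mp (hΩ.mem_nhds hc)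
  have : Nonempty (Fin N) := ⟨⟨0, hN⟩⟩
  refine ⟨Vf c R, uf c R, measurable_Vf c R, Vf_nonneg c R, ?_, contDiff_uf c R,
    ⟨?_, ?_, ?_, ?_, ?_, ?_⟩, ?_⟩
  · intro p hp
    have e : (fun x => √(max (Vf c R x) 0)) = fun x => √(Vf c R x) := by
      ext x; rw [max_eq_left (Vf_nonneg c R x)]
    rw [e]
    exact (memLp_sqrt_Vf c hR hp).restrict _
  · have hcs : HasCompactSupport (uf c R) :=
      HasCompactSupport.intro (isCompact_closedBall c R) fun x hx => uf_zero hR hx
    exact ((contDiff_uf c R).continuous.integrable_of_hasCompactSupport hcs).integrableOn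
  · exact (contDiff_uf c R).continuous.continuousOn
  · intro x _; exact Wf_nonneg _
  · have hcont : Continuous (fun x => Vf c R x * uf c R x) := by
      simp_rw [Vf_mul_uf]
      exact continuous_const.mul (continuous_mf'.comp (contDiff_sg c R).continuous)
    have hcs : HasCompactSupport (fun x => Vf c R x * uf c R x) :=
      HasCompactSupport.intro (isCompact_closedBall c R) fun x hx => by
        rw [uf_zero hR hx, mul_zero]
    exact (hcont.integrable_of_hasCompactSupport hcs).integrableOn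
  · intro φ hφ hφc hφΩ hφ0
    have hφ2 : ContDiff ℝ 2 φ := contDiff_infty.mp hφ 2
    have hcont : Continuous (fun x => Vf c R x * uf c R x) := by
      simp_rw [Vf_mul_uf]
      exact continuous_const.mul (continuous_mf'.comp (contDiff_sg c R).continuous)
    rw [setIntegral_eq_integral_of_forall_compl_eq_zero (fun x hx => by
        rw [uf_zero hR (fun h => hx (hRΩ h)), zero_mul]),
      setIntegral_eq_integral_of_forall_compl_eq_zero (fun x hx => by
        rw [uf_zero hR (fun h => hx (hRΩ h)), mul_zero, zero_mul]),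
      green (contDiff_uf c R) hφ2 hφc]
    refine integral_mono ?_ ?_ ?_
    · exact ((continuous_laplacian (contDiff_uf c R)).mul
        hφ.continuous).integrable_of_hasCompactSupport hφc.mul_left
    · exact (hcont.mul hφ.continuous).integrable_of_hasCompactSupport hφc.mul_left
    · intro x
      exact mul_le_mul_of_nonneg_right (laplacian_le c hR x) (hφ0 x)
  · exact ⟨Metric.closedBall c R, isCompact_closedBall c R, hRΩ, fun x _ hx => uf_zero hR hx⟩
  · refine ⟨c, hc, ?_⟩
    have : 0 < uf c R c := Wf_pos (by simp [sg])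
    exact this.ne'

end Pool.Agent.Results.MP_1d8377_an.NoStrongMax
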